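import Pool.Agent.Lib.MP_6bc78b_nt.GP.H62.Defs9a

/-! Project GP10 (MP_6bc78b_nt), arithmetic side: a sequence of scales of primes, windows down to
a constant. Statements of the rows. -/

set_option autoImplicit false

open Complex Filter Topology MeasureTheory ArithmeticFunction Set
open scoped ENNReal

namespace Pool.Agent.Lib.MP_6bc78b_nt.GP.G10

open Pool.Agent.Lib.MP_6bc78b_nt.MS Pool.Agent.Lib.MP_6bc78b_nt.MS.P1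
  Pool.Agent.Lib.MP_6bc78b_nt.GP.G7 Pool.Agent.Lib.MP_6bc78b_nt.GP.G8

/-- The exponents of the thresholds: `1/4`, increasing, below `7/8`. -/
noncomputable def be (k : ℕ) : ℝ := 7 / 8 - 5 / (8 * ((k : ℝ) + 1))

/-- `be (k+1) - be k = 5 / (8 (k+1) (k+2))`. -/
noncomputable def dl (k : ℕ) : ℝ := 5 / (8 * ((k : ℝ) + 1) * ((k : ℝ) + 2))

/-- MERK: `∑ 1/q` over `(P, P^K]`, uniform in `K`. -/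
def MERKStatement : Prop := ∃ c P0 : ℝ, 0 < c ∧ 2 ≤ P0 ∧ ∀ (P : ℝ) (K : ℕ), P0 ≤ P → 1 ≤ K →
  c * Real.log K ≤ Wq P (P ^ K)

/-- DECK (TKX, ENDX, MVTX, BASX): as DEC8, with `T0` uniform in `κ` and `K`. -/
def DECKStatement : Prop := ∀ a ε : ℝ, 0 < a → 0 < ε → ε < 1 → ∃ C : ℝ, 0 < C ∧
  ∀ η : ℝ, 0 < η → η < 1 → ∃ T0 : ℝ, 10 < T0 ∧ ∀ (T h P κ : ℝ) (K : ℕ), T0 ≤ T → 1 ≤ h →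
    h ≤ Real.log T ^ 2 → 2 ≤ P → 1 / Real.log T ≤ κ → κ ≤ 1 / 2 → 1 ≤ K →
    QE P κ K ≤ T ^ (η / 8) → 1 ≤ Wb P κ K →
    ∫⁻ t : ℝ, ENNReal.ofReal (‖Dp ε η T t - Fb ε η κ K P T t‖ ^ 2 *
        Real.exp (-(a * h / T * |t|))) ≤
      ENNReal.ofReal (C * (1 / Wb P κ K + κ) * Real.log T ^ 4)

/-- HIGHK (PRBX8, CMBX, MVTX, BASX; RH): as HIGH8, for every scale in `[(log log T)^16, log T]`,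
with `T0` uniform in `P`, `κ` and `K`. -/
def HIGHKStatement : Prop := RiemannHypothesis → ∀ (a b ε η δ : ℝ), 0 < a → a < b →
  0 < ε → ε < 1 → 0 < η → η < 1 → 0 < δ →
  ∃ T0 : ℝ, 10 < T0 ∧ ∀ (T h P κ : ℝ) (K : ℕ), T0 ≤ T → 1 ≤ h → h ≤ Real.log T ^ 2 →
    Real.log (Real.log T) ^ 16 ≤ P → QE P κ K ≤ Real.log T → 1 / Real.log T ≤ κ → κ ≤ 1 / 2 →
    1 ≤ K →
    ∫⁻ t in {t : ℝ | T / Real.log T ^ 6 < |t| ∧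
        ∃ v < nb P κ K, yb P κ v ^ (-(7 / 8 : ℝ)) < ‖Qb P κ v t‖ ^ 2},
      ENNReal.ofReal (‖Dp ε η T t‖ ^ 2 * rho a b T (Real.log T ^ 2) h t) ≤
      ENNReal.ofReal (δ * Real.log T ^ 4)

/-- MEDK (MEDP, BASX): some block of the lower scale is large, all blocks of the upper scale are
small. -/
def MEDKStatement : Prop := ∀ a ε : ℝ, 0 < a → 0 < ε → ε < 1 → ∃ C : ℝ, 0 < C ∧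
  ∀ η : ℝ, 0 < η → η < 1 → ∃ T0 : ℝ, 10 < T0 ∧
  ∀ (T h P₁ κ₁ P₂ κ₂ β₁ β₂ : ℝ) (K₁ K₂ : ℕ), T0 ≤ T → 1 ≤ h → h ≤ Real.log T ^ 2 →
    3 ≤ P₁ → 0 < κ₁ → κ₁ ≤ 1 / 2 → 0 < κ₂ → κ₂ ≤ 1 / 2 → 1 ≤ K₁ → 1 ≤ K₂ → 0 ≤ β₁ →
    β₁ < β₂ → β₂ ≤ 1 → QE P₂ κ₂ K₂ ≤ Real.sqrt T → 1 ≤ Wb P₂ κ₂ K₂ →
    8 * Real.log (QE P₂ κ₂ K₂) ≤ P₁ ^ ((β₂ - β₁) / 16) →
    QE P₁ κ₁ K₁ ≤ P₂ ^ ((β₂ - β₁) / 4) →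
    (nb P₁ κ₁ K₁ : ℝ) ≤ P₂ ^ ((β₂ - β₁) / 16) → (nb P₂ κ₂ K₂ : ℝ) ≤ P₂ ^ ((β₂ - β₁) / 16) →
    ∫⁻ t in {t : ℝ | (∃ v < nb P₁ κ₁ K₁, yb P₁ κ₁ v ^ (-β₁) < ‖Qb P₁ κ₁ v t‖ ^ 2) ∧
        ∀ v < nb P₂ κ₂ K₂, ‖Qb P₂ κ₂ v t‖ ^ 2 ≤ yb P₂ κ₂ v ^ (-β₂)},
      ENNReal.ofReal (‖Fb ε η κ₂ K₂ P₂ T t‖ ^ 2 * Real.exp (-(a * h / T * |t|))) ≤
      ENNReal.ofReal (C * P₂ ^ (-((β₂ - β₁) / 4)) * Real.log T ^ 4)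

/-- SEQK: the sequence of scales (`P (k+1) = exp (P k ^ (dl k / 32))`). -/
def SEQKStatement : Prop := ∀ c δ B : ℝ, 0 < c → 0 < δ → δ < 1 → ∃ (P κ : ℕ → ℝ) (K : ℕ → ℕ),
  B ≤ P 0 ∧ (∀ k, 3 ≤ P k ∧ (k : ℝ) ≤ P k ∧ 0 < κ k ∧ κ k ≤ 1 / 2 ∧ κ k ≤ δ / 2 ^ k ∧ 1 ≤ K k ∧
    2 ^ k / δ ≤ c * Real.log (K k)) ∧
  P 0 ^ (-(1 / 4 : ℝ)) ≤ δ / (1 + nb (P 0) (κ 0) (K 0)) ^ 2 ∧
  ∀ k, P k ≤ P (k + 1) ∧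
    8 * Real.log (QE (P (k + 1)) (κ (k + 1)) (K (k + 1))) ≤ P k ^ (dl k / 16) ∧
    QE (P k) (κ k) (K k) ≤ P (k + 1) ^ (dl k / 4) ∧
    (nb (P k) (κ k) (K k) : ℝ) ≤ P (k + 1) ^ (dl k / 16) ∧
    (nb (P (k + 1)) (κ (k + 1)) (K (k + 1)) : ℝ) ≤ P (k + 1) ^ (dl k / 16) ∧
    P (k + 1) ^ (-(dl k / 4)) ≤ δ / 2 ^ k ∧ 1 / κ (k + 1) ≤ P k

/-- MELK (DECK, SML8, GOODX, MEDK, HIGHK, MERK, SEQK): assembly on the `t`-side. -/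
def MELKStatement : Prop := RiemannHypothesis → ∀ a b ε η δ : ℝ, 0 < a → a < b → 0 < ε →
  ε < 1 → 0 < η → η < 1 → 0 < δ → ∃ H0 T0 : ℝ, 1 ≤ H0 ∧ 10 < T0 ∧ ∀ T h : ℝ, T0 ≤ T →
    H0 ≤ h → h ≤ Real.log T ^ 2 →
    ∫⁻ t : ℝ, ENNReal.ofReal (‖Dp ε η T t‖ ^ 2 * rho a b T (Real.log T ^ 2) h t) ≤
      ENNReal.ofReal (δ * Real.log T ^ 4)

/-- MIDK (as MID8, from MELK): the middle region. -/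
def MIDKStatement : Prop := RiemannHypothesis → ∀ A B a b ε : ℝ, 0 < a → a < b → 0 < ε →
  ∃ H0 T0 : ℝ, 1 ≤ H0 ∧ 10 < T0 ∧ ∀ T h : ℝ, T0 ≤ T → H0 ≤ h → h ≤ Real.log T ^ 2 →
    ∫⁻ z in mid a b T (Real.log T ^ 2) h, ENNReal.ofReal (‖EE A B z‖ ^ 2) ≤
      ENNReal.ofReal (ε * Real.log T ^ 4)

/-- AREK (as ARE8, from MIDK): the strip with the weight `1/(1 + κ₀ lam² y²)`. -/
def AREKStatement : Prop := RiemannHypothesis → ∀ (A B : ℝ) (D : ℂ → ℂ), IsD A B D →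
  ∀ a b R κ₀ ε : ℝ, 0 < a → a < b → 0 < R → 0 < κ₀ → 0 < ε →
  ∃ H0 T0 : ℝ, 1 ≤ H0 ∧ 10 < T0 ∧ ∀ T lam : ℝ, T0 ≤ T → H0 ≤ lam → lam ≤ Real.log T →
    ∫⁻ z in strip a b R T, ENNReal.ofReal (‖EE A B z‖ ^ 2 / (1 + κ₀ * lam ^ 2 * z.im ^ 2)) ≤
      ENNReal.ofReal (ε * Real.log T ^ 4)

end Pool.Agent.Lib.MP_6bc78b_nt.GP.G10
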