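import Pool.Agent.Lib.MP_6bc78b_nt.GP.H62.Defs7

/-! Project GP8 (MP_6bc78b_nt): simple zeros in almost all windows of length
`C (log log T)^(1/2)`, under RH. A second scale of primes below the one of GP7.
Statements of the rows. -/

set_option autoImplicit false

open Complex Filter Topology MeasureTheory ArithmeticFunction Set
open scoped ENNReal

namespace Pool.Agent.Lib.MP_6bc78b_nt.GP.G8

open Pool.Agent.Lib.MP_6bc78b_nt.MS Pool.Agent.Lib.MP_6bc78b_nt.MS.P1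
  Pool.Agent.Lib.MP_6bc78b_nt.GP.G7

/-- The small scale. -/
noncomputable def PA (T : ℝ) : ℝ := Real.log (Real.log (Real.log T)) ^ 3
/-- The large scale. -/
noncomputable def PB (T : ℝ) : ℝ := Real.log (Real.log T) ^ 16
/-- The number of blocks. -/
noncomputable def nb (P κ : ℝ) (K : ℕ) : ℕ := ⌈K * Real.log P / κ⌉₊
/-- The beginning of block number `v`. -/
noncomputable def yb (P κ : ℝ) (v : ℕ) : ℝ := P * Real.exp (κ * v)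
/-- The end of the last block. -/
noncomputable def QE (P κ : ℝ) (K : ℕ) : ℝ := yb P κ (nb P κ K)
/-- `∑ 1/q` over all blocks. -/
noncomputable def Wb (P κ : ℝ) (K : ℕ) : ℝ := Wq P (QE P κ K)
/-- `∑_q q^{-(1+it)}` over block number `v`. -/
noncomputable def Qb (P κ : ℝ) (v : ℕ) (t : ℝ) : ℂ := Qp (yb P κ v) (yb P κ (v + 1)) t

/-- `D(1+it) = ∑_{εT < n ≤ T/ε} f(n) n^{-(1+it)}`. -/
noncomputable def Dp (ε η T t : ℝ) : ℂ :=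
  ∑ n ∈ Finset.Ioc ⌊ε * T⌋₊ ⌊T / ε⌋₊, (ff η T n : ℂ) * (n : ℂ) ^ (-(1 + t * I : ℂ))

/-- `M_y(1+it) = ∑_{εT < ym ≤ T/ε} f(m) m^{-(1+it)}`. -/
noncomputable def Mb (ε η y T t : ℝ) : ℂ :=
  ∑ m ∈ Finset.Ioc ⌊ε * T / y⌋₊ ⌊T / (ε * y)⌋₊, (ff η T m : ℂ) * (m : ℂ) ^ (-(1 + t * I : ℂ))

/-- `(1/W) ∑_v Q_v M_v`. -/
noncomputable def Fb (ε η κ : ℝ) (K : ℕ) (P T t : ℝ) : ℂ :=
  (1 / (Wb P κ K : ℂ)) *
    ∑ v ∈ Finset.range (nb P κ K), Qb P κ v t * Mb ε η (yb P κ v) T t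

/-- The threshold `V²` of the small scale. -/
noncomputable def VA (c κ : ℝ) (K : ℕ) (T : ℝ) : ℝ := c / (1 + nb (PA T) κ K) ^ 2

/-- The threshold `V²` of the large scale. -/
noncomputable def VB (κ T : ℝ) (v : ℕ) : ℝ := yb (PB T) κ v ^ (-(7 / 8 : ℝ))

/-! ## Arithmetic -/

/-- RNG8: the ends of the range (without `om`). -/
def RNG8Statement : Prop := ∀ a : ℝ, 0 < a → ∃ C : ℝ, 0 < C ∧ ∀ ε : ℝ, 0 < ε → ε < 1 →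
  ∃ T0 : ℝ, 10 < T0 ∧ ∀ T : ℝ, T0 ≤ T →
    ∑' n : ℕ, (if (n : ℝ) ≤ ε * T ∨ T / ε < n then
      Real.log n ^ 4 * Real.exp (-(2 * a / T * n)) else 0) ≤ C * ε * T * Real.log T ^ 4

/-- ENDX: `om²` on a short range. -/
def ENDXStatement : Prop := ∃ C : ℝ, 0 < C ∧ ∀ P Q κ N : ℝ, 2 ≤ P → P < Q → 0 < κ → κ ≤ 1 →
  1 ≤ N →
    ∑ n ∈ Finset.Ioc ⌊N⌋₊ ⌊Real.exp κ * N⌋₊, omq P Q n ^ 2 ≤
      C * (κ * N * (Wq P Q ^ 2 + Wq P Q) + Q ^ 2)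

/-- CMB2X (MVTX): high powers of a block against any polynomial. -/
def CMB2XStatement : Prop := ∃ C : ℝ, 0 < C ∧ ∀ (P Q b F M₁ M₂ : ℝ) (k : ℕ) (α : ℕ → ℂ),
  2 ≤ P → P < Q → Wq P Q ≤ 1 → 0 < b → b ≤ 1 → 0 < M₁ → M₁ ≤ M₂ → 0 ≤ F → (∀ m, ‖α m‖ ≤ F) →
  ∫⁻ t : ℝ, ENNReal.ofReal (‖(∑ m ∈ Finset.Ioc ⌊M₁⌋₊ ⌊M₂⌋₊,
      α m * (m : ℂ) ^ (-(1 + t * I : ℂ))) * Qp P Q t ^ k‖ ^ 2 * Real.exp (-(b * |t|))) ≤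
    ENNReal.ofReal (C * F ^ 2 * (k + 1) * ((4 * k / P) ^ k / (b * M₁) +
      (2 * k) ^ k * (1 + Real.log (M₂ / M₁))))

/-! ## The `t`-side -/

/-- DEC8 (TKX, ENDX, MVTX, BASX): factorisation at the scale `P`, any `P`. -/
def DEC8Statement : Prop := ∀ a ε : ℝ, 0 < a → 0 < ε → ε < 1 → ∃ C : ℝ, 0 < C ∧
  ∀ (η κ : ℝ) (K : ℕ), 0 < η → η < 1 → 0 < κ → κ ≤ 1 / 2 → 1 ≤ K →
  ∃ T0 : ℝ, 10 < T0 ∧ ∀ T h P : ℝ, T0 ≤ T → 1 ≤ h → h ≤ Real.log T ^ 2 → 2 ≤ P →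
    QE P κ K ≤ T ^ (η / 8) → 1 ≤ Wb P κ K →
    ∫⁻ t : ℝ, ENNReal.ofReal (‖Dp ε η T t - Fb ε η κ K P T t‖ ^ 2 *
        Real.exp (-(a * h / T * |t|))) ≤
      ENNReal.ofReal (C * (1 / Wb P κ K + κ) * Real.log T ^ 4)

/-- SML8 (MVTX, BASX): small `t`. -/
def SML8Statement : Prop := ∀ a b ε η δ : ℝ, 0 < a → a < b → 0 < ε → ε < 1 → 0 < η → η < 1 →
  0 < δ → ∃ T0 : ℝ, 10 < T0 ∧ ∀ T h : ℝ, T0 ≤ T → 1 ≤ h → h ≤ Real.log T ^ 2 →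
    ∫⁻ t in {t : ℝ | |t| ≤ T / Real.log T ^ 6},
      ENNReal.ofReal (‖Dp ε η T t‖ ^ 2 * rho a b T (Real.log T ^ 2) h t) ≤
      ENNReal.ofReal (δ * Real.log T ^ 4)

/-- GOOD8 (MVTX, BASX): all blocks of the small scale are small. -/
def GOOD8Statement : Prop := ∀ a ε : ℝ, 0 < a → 0 < ε → ε < 1 → ∃ C : ℝ, 0 < C ∧
  ∀ (η κ c : ℝ) (K : ℕ), 0 < η → η < 1 → 0 < κ → κ ≤ 1 / 2 → 0 < c → c < 1 → 1 ≤ K →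
  ∃ T0 : ℝ, 10 < T0 ∧ ∀ T h : ℝ, T0 ≤ T → QE (PA T) κ K ≤ h → h ≤ Real.log T ^ 2 →
    1 ≤ Wb (PA T) κ K →
    ∫⁻ t in {t : ℝ | ∀ v < nb (PA T) κ K, ‖Qb (PA T) κ v t‖ ^ 2 ≤ VA c κ K T},
      ENNReal.ofReal (‖Fb ε η κ K (PA T) T t‖ ^ 2 * Real.exp (-(a * h / T * |t|))) ≤
      ENNReal.ofReal (C * c * Real.log T ^ 4)

/-- PRBX8: as PRBX, in the wider range `e^(j/L) ≤ T^(5/4)` (needed for HIGH8, where `n ≤ T/ε`). -/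
def PRBX8Statement : Prop := RiemannHypothesis → ∃ C T0 : ℝ, 0 < C ∧ 10 < T0 ∧
  ∀ (T t : ℝ) (j : ℕ), T0 ≤ T → T / Real.log T ^ 6 ≤ |t| → |t| ≤ T ^ 2 → 1 ≤ j →
    (j : ℝ) / Real.log T ≤ 5 / 4 * Real.log T → ‖Rj T j t‖ ≤
      C * Real.log T ^ 4 * Real.exp (-((j : ℝ) / (2 * Real.log T)))

/-- HIGH8 (PRBX8, CMBX, MVTX, BASX; RH): some block of the large scale is large. -/
def HIGH8Statement : Prop := RiemannHypothesis → ∀ (a b ε η κ δ : ℝ) (K : ℕ), 0 < a → a < b →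
  0 < ε → ε < 1 → 0 < η → η < 1 → 0 < κ → κ ≤ 1 / 2 → 0 < δ → 1 ≤ K →
  ∃ T0 : ℝ, 10 < T0 ∧ ∀ T h : ℝ, T0 ≤ T → 1 ≤ h → h ≤ Real.log T ^ 2 →
    ∫⁻ t in {t : ℝ | T / Real.log T ^ 6 < |t| ∧
        ∃ v < nb (PB T) κ K, VB κ T v < ‖Qb (PB T) κ v t‖ ^ 2},
      ENNReal.ofReal (‖Dp ε η T t‖ ^ 2 * rho a b T (Real.log T ^ 2) h t) ≤
      ENNReal.ofReal (δ * Real.log T ^ 4)

/-- MED8 (CMB2X, BASX): some block of the small scale is large, all blocks of the large scale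
are small. -/
def MED8Statement : Prop := ∀ (a ε η κ c δ : ℝ) (K : ℕ), 0 < a → 0 < ε → ε < 1 → 0 < η →
  η < 1 → 0 < κ → κ ≤ 1 / 2 → 0 < c → c < 1 → 0 < δ → 1 ≤ K →
  ∃ T0 : ℝ, 10 < T0 ∧ ∀ T h : ℝ, T0 ≤ T → 1 ≤ h → h ≤ Real.log T ^ 2 →
    1 ≤ Wb (PB T) κ K →
    ∫⁻ t in {t : ℝ | (∃ v < nb (PA T) κ K, VA c κ K T < ‖Qb (PA T) κ v t‖ ^ 2) ∧
        ∀ v < nb (PB T) κ K, ‖Qb (PB T) κ v t‖ ^ 2 ≤ VB κ T v},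
      ENNReal.ofReal (‖Fb ε η κ K (PB T) T t‖ ^ 2 * Real.exp (-(a * h / T * |t|))) ≤
      ENNReal.ofReal (δ * Real.log T ^ 4)

/-- MEL8 (DEC8, SML8, GOOD8, HIGH8, MED8, MERX): assembly on the `t`-side. -/
def MEL8Statement : Prop := RiemannHypothesis → ∀ a b ε η δ : ℝ, 0 < a → a < b → 0 < ε →
  ε < 1 → 0 < η → η < 1 → 0 < δ → ∃ K : ℕ, ∃ T0 : ℝ, 10 < T0 ∧ ∀ T h : ℝ, T0 ≤ T →
    Real.log (Real.log (Real.log T)) ^ K ≤ h → h ≤ Real.log T ^ 2 →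
    ∫⁻ t : ℝ, ENNReal.ofReal (‖Dp ε η T t‖ ^ 2 * rho a b T (Real.log T ^ 2) h t) ≤
      ENNReal.ofReal (δ * Real.log T ^ 4)

/-- MID8 (POLX, MEL8, RNG8, GX, SMOX, STRX, BASX, ARI0): the middle region. -/
def MID8Statement : Prop := RiemannHypothesis → ∀ A B a b ε : ℝ, 0 < a → a < b → 0 < ε →
  ∃ K : ℕ, ∃ T0 : ℝ, 10 < T0 ∧ ∀ T h : ℝ, T0 ≤ T →
    Real.log (Real.log (Real.log T)) ^ K ≤ h → h ≤ Real.log T ^ 2 →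
    ∫⁻ z in mid a b T (Real.log T ^ 2) h, ENNReal.ofReal (‖EE A B z‖ ^ 2) ≤
      ENNReal.ofReal (ε * Real.log T ^ 4)

/-! ## Energy -/

/-- ARE8 (MID8, ARE5, STRX, BASX, ARI0): the strip with the weight `1/(1 + κ₀ lam² y²)`. -/
def ARE8Statement : Prop := RiemannHypothesis → ∀ (A B : ℝ) (D : ℂ → ℂ), IsD A B D →
  ∀ a b R κ₀ ε : ℝ, 0 < a → a < b → 0 < R → 0 < κ₀ → 0 < ε →
  ∃ K : ℕ, ∃ T0 : ℝ, 10 < T0 ∧ ∀ T lam : ℝ, T0 ≤ T →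
    Real.log (Real.log (Real.log T)) ^ K ≤ lam → lam ≤ Real.log T →
    ∫⁻ z in strip a b R T, ENNReal.ofReal (‖EE A B z‖ ^ 2 / (1 + κ₀ * lam ^ 2 * z.im ^ 2)) ≤
      ENNReal.ofReal (ε * Real.log T ^ 4)

/-- AVG8 (ARE8, TAI7, CHV): a good `δ` (for `|u| > 1/2` the weight is at most `4/lam²`). -/
def AVG8Statement : Prop := RiemannHypothesis → ∀ (A B : ℝ) (D : ℂ → ℂ), IsD A B D →
  ∀ ε : ℝ, 0 < ε → ∃ K : ℕ, ∃ T0 : ℝ, 10 < T0 ∧ ∀ T H lam : ℝ, T0 ≤ T →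
    Real.log (Real.log (Real.log T)) ^ K ≤ lam → lam ≤ Real.log T → 4 ≤ H → H ≤ lam →
    ∃ δ ∈ Icc (1 / T) (2 / T),
      ∫⁻ u : ℝ, ENNReal.ofReal (‖EE A B (zp u δ)‖ ^ 2 * Real.exp (-(H ^ 2 * u ^ 2) + u) /
        (1 + lam ^ 2 * u ^ 2)) ≤ ENNReal.ofReal (ε * T * Real.log T ^ 4)

/-! ## Zeros -/

/-- CHB8: as CHB7, with `H = lam / (8 log log T)^(1/2)`; `C` is absolute. -/
def CHB8Statement : Prop := RiemannHypothesis → ∃ C : ℝ, 0 < C ∧ ∀ ε : ℝ, 0 < ε →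
  ∃ c : ℝ, 0 < c ∧ ∃ T0 : ℝ, 10 < T0 ∧ ∀ T lam : ℝ, T0 ≤ T →
    C * Real.sqrt (Real.log (Real.log T)) ≤ lam → lam ≤ Real.log T →
    volume {t : ℝ | T ≤ t ∧ t ≤ 2 * T ∧
      (({γ : ℝ | |γ - t| < 2 * lam ∧ mz γ = 1}.ncard : ℕ) : ℝ) ≤ c * lam} ≤
      ENNReal.ofReal (ε * T)

/-- FIN8 (from CHB8): the theorem; `C` is absolute. -/
def CountStatement8 : Prop := RiemannHypothesis → ∃ C : ℝ, 0 < C ∧ ∀ ε : ℝ, 0 < ε →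
  ∃ c : ℝ, 0 < c ∧ ∃ T0 : ℝ, 10 < T0 ∧ ∀ T h : ℝ, T0 ≤ T →
    C * Real.sqrt (Real.log (Real.log T)) ≤ h → h ≤ T →
    volume {t : ℝ | 0 ≤ t ∧ t ≤ T ∧
      (({γ : ℝ | t < γ ∧ γ < t + h ∧ zeroMult γ = 1}.ncard : ℕ) : ℝ) ≤ c * h} ≤
      ENNReal.ofReal (ε * T)

end Pool.Agent.Lib.MP_6bc78b_nt.GP.G8
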